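import Pool.Agent.TH382.FO.Dens

/-!
# Frequencies of words from finitely many Weyl means
-/

set_option autoImplicit false

namespace Pool.Agent.TH382.FT

open Finset MeasureTheory Pool.Agent.TH382.FO Pool.Agent.H1R3.Det

/-! ## A quantitative form of Weyl's criterion -/

/-- The averages of `f` are close to its mean as soon as finitely many Weyl means are small. -/
def Ctrl (f : C(Circ, ℂ)) : Prop :=
  ∀ ε : ℝ, 0 < ε → ∃ (H : Finset ℤ) (δ : ℝ), 0 ∉ H ∧ 0 < δ ∧ ∀ (z : ℕ → Circ) (N : ℕ), 0 < N →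
    (∀ h ∈ H, ‖avg z (fun y => (fourier h y : ℂ)) N‖ ≤ δ) → ‖avg z f N - ∫ y : Circ, f y‖ ≤ ε

lemma ctrl_fourier (n : ℤ) : Ctrl (fourier n) := by
  intro ε hε
  by_cases hn : n = 0
  · subst hn
    refine ⟨∅, 1, by simp, one_pos, fun z N hN _ => ?_⟩
    have h1 : avg z (fourier 0 : C(Circ, ℂ)) N = 1 := by
      unfold avg
      simp only [fourier_zero, Finset.sum_const, Finset.card_range, nsmul_eq_mul, mul_one]
      have : (N : ℂ) ≠ 0 := by exact_mod_cast hN.ne'
      field_simp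
    have h2 : ∫ y : Circ, (fourier 0 : C(Circ, ℂ)) y = 1 := by simp [Measure.real]
    rw [h1, h2, sub_self, norm_zero]
    exact hε.le
  · refine ⟨{n}, ε, by simpa using fun h => hn h.symm, hε, fun z N _ h => ?_⟩
    rw [integral_fourier_eq_zero hn, sub_zero]
    exact h n (mem_singleton_self n)

lemma int_of (f : C(Circ, ℂ)) : Integrable (fun y => f y) (volume : Measure Circ) :=
  f.continuous.integrable_of_hasCompactSupport (HasCompactSupport.of_compactSpace _)

lemma ctrl_add {f g : C(Circ, ℂ)} (hf : Ctrl f) (hg : Ctrl g) : Ctrl (f + g) := by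
  intro ε hε
  obtain ⟨H, δ, h0, hδ, h⟩ := hf (ε / 2) (by positivity)
  obtain ⟨H', δ', h0', hδ', h'⟩ := hg (ε / 2) (by positivity)
  refine ⟨H ∪ H', min δ δ', by simp [h0, h0'], lt_min hδ hδ', fun z N hN hz => ?_⟩
  have h1 := h z N hN fun k hk => (hz k (mem_union_left _ hk)).trans (min_le_left _ _)
  have h2 := h' z N hN fun k hk => (hz k (mem_union_right _ hk)).trans (min_le_right _ _)
  have h3 : avg z (f + g : C(Circ, ℂ)) N = avg z f N + avg z g N := by
    unfold avg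
    rw [← add_div, ← sum_add_distrib]; rfl
  have h4 : ∫ y : Circ, (f + g) y = (∫ y : Circ, f y) + ∫ y : Circ, g y := by
    have := integral_add (int_of f) (int_of g)
    simpa using this
  rw [h3, h4]
  calc ‖avg z f N + avg z g N - ((∫ y : Circ, f y) + ∫ y : Circ, g y)‖
      = ‖(avg z f N - ∫ y : Circ, f y) + (avg z g N - ∫ y : Circ, g y)‖ := by congr 1; ring
    _ ≤ ε / 2 + ε / 2 := (norm_add_le _ _).trans (add_le_add h1 h2)
    _ = ε := by ring

lemma ctrl_smul (c : ℂ) {f : C(Circ, ℂ)} (hf : Ctrl f) : Ctrl (c • f) := by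
  intro ε hε
  obtain ⟨H, δ, h0, hδ, h⟩ := hf (ε / (‖c‖ + 1)) (by positivity)
  refine ⟨H, δ, h0, hδ, fun z N hN hz => ?_⟩
  have h1 := h z N hN hz
  have h3 : avg z (c • f : C(Circ, ℂ)) N = c * avg z f N := by
    unfold avg
    simp only [ContinuousMap.coe_smul, Pi.smul_apply, smul_eq_mul]
    rw [← Finset.mul_sum, mul_div_assoc]
  have h4 : ∫ y : Circ, (c • f) y = c * ∫ y : Circ, f y := by simp [integral_const_mul]
  rw [h3, h4, ← mul_sub, norm_mul]
  calc ‖c‖ * ‖avg z f N - ∫ y : Circ, f y‖ ≤ ‖c‖ * (ε / (‖c‖ + 1)) := by gcongr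
    _ ≤ (‖c‖ + 1) * (ε / (‖c‖ + 1)) := by gcongr; linarith
    _ = ε := by field_simp

/-- **Quantitative Weyl criterion.** -/
theorem ctrl (f : C(Circ, ℂ)) : Ctrl f := by
  intro ε hε
  have hmem : ∀ g ∈ (Submodule.span ℂ (Set.range <| @fourier 1)), Ctrl g := by
    intro g hg
    induction hg using Submodule.span_induction with
    | mem g hg => obtain ⟨n, rfl⟩ := hg; exact ctrl_fourier n
    | zero =>
      intro ε hε
      refine ⟨∅, 1, by simp, one_pos, fun z N _ _ => ?_⟩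
      have : avg z (0 : C(Circ, ℂ)) N = 0 := by simp [avg]
      rw [this]
      simpa using hε.le
    | add f g _ _ ihf ihg => exact ctrl_add ihf ihg
    | smul c f _ ihf => exact ctrl_smul c ihf
  have hcl : f ∈ (Submodule.span ℂ (Set.range <| @fourier 1)).topologicalClosure := by
    rw [span_fourier_closure_eq_top]; trivial
  rw [← SetLike.mem_coe, Submodule.topologicalClosure_coe, Metric.mem_closure_iff] at hcl
  obtain ⟨g, hg, hgd⟩ := hcl (ε / 3) (by positivity)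
  obtain ⟨H, δ, h0, hδ, h⟩ := hmem g hg (ε / 3) (by positivity)
  refine ⟨H, δ, h0, hδ, fun z N hN hz => ?_⟩
  have h1 := h z N hN hz
  rw [dist_eq_norm] at hgd
  have h2 : ‖avg z f N - avg z g N‖ ≤ ‖f - g‖ := avg_norm_sub_le z f g N
  have h3 : ‖(∫ y : Circ, g y) - ∫ y : Circ, f y‖ ≤ ‖f - g‖ := by
    rw [← integral_sub (int_of g) (int_of f)]
    calc ‖∫ y : Circ, (g y - f y)‖ ≤ ‖f - g‖ * (volume : Measure Circ).real Set.univ := by
          apply norm_integral_le_of_norm_le_const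
          filter_upwards with y
          rw [← norm_neg, neg_sub]
          exact (f - g).norm_coe_le_norm y
      _ = ‖f - g‖ := by simp [Measure.real]
  calc ‖avg z f N - ∫ y : Circ, f y‖
      = ‖(avg z f N - avg z g N) + (avg z g N - ∫ y : Circ, g y) +
          ((∫ y : Circ, g y) - ∫ y : Circ, f y)‖ := by congr 1; ring
    _ ≤ ‖f - g‖ + ε / 3 + ‖f - g‖ := by
        refine (norm_add_le _ _).trans (add_le_add ((norm_add_le _ _).trans ?_) h3)
        exact add_le_add h2 h1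
    _ ≤ ε := by linarith

/-! ## Arcs -/

/-- The number of visits to a closed arc of length `2 ρ` is at most `(2 ρ + ε) N` if finitely many
Weyl means are small. -/
lemma arc_upper (m : ℝ) {ρ ε : ℝ} (hρ : 0 ≤ ρ) (hε : 0 < ε) :
    ∃ (H : Finset ℤ) (δ : ℝ), 0 ∉ H ∧ 0 < δ ∧ ∀ (z : ℕ → Circ) (N : ℕ), 0 < N →
      (∀ h ∈ H, ‖avg z (fun y => (fourier h y : ℂ)) N‖ ≤ δ) →
      (((range N).filter fun n => ‖z n - ((m : ℝ) : Circ)‖ ≤ ρ).card : ℝ) ≤ (2 * ρ + ε) * N := by
  classical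
  set η := ε / 4 with hη
  have hη0 : 0 < η := by positivity
  let g : C(Circ, ℝ) := ⟨fun y => max 0 (min 1 ((ρ + η - ‖y - ((m : ℝ) : Circ)‖) / η)), by fun_prop⟩
  let f : C(Circ, ℂ) := ⟨fun y => (g y : ℂ), by fun_prop⟩
  have hg0 : ∀ y, 0 ≤ g y := fun y => le_max_left _ _
  have hg1 : ∀ y, g y ≤ 1 := fun y => max_le zero_le_one (min_le_left _ _)
  obtain ⟨H, δ, h0, hδ, h⟩ := ctrl f (ε / 2) (by positivity)
  refine ⟨H, δ, h0, hδ, fun z N hN hz => ?_⟩
  have h1 := h z N hN hz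
  have hNpos : (0 : ℝ) < N := by exact_mod_cast hN
  -- the average
  have h2 : avg z f N = (((∑ n ∈ range N, g (z n)) / N : ℝ) : ℂ) := by
    unfold avg
    simp only [f, ContinuousMap.coe_mk]
    push_cast
    rfl
  have h3 : ∫ y : Circ, f y = ((∫ y : Circ, g y : ℝ) : ℂ) := by
    simp only [f, ContinuousMap.coe_mk]
    exact integral_ofReal
  rw [h2, h3, ← Complex.ofReal_sub, Complex.norm_real, Real.norm_eq_abs] at h1
  have h4 := (abs_le.1 h1).2
  -- the integral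
  have h5 : ∫ y : Circ, g y ≤ 2 * (ρ + η) := by
    set B := Metric.closedBall (((m : ℝ) : Circ)) (ρ + η) with hB
    have h6 : ∀ y : Circ, g y ≤ B.indicator (fun _ => (1 : ℝ)) y := by
      intro y
      by_cases hy : y ∈ B
      · rw [Set.indicator_of_mem hy]; exact hg1 y
      · rw [Set.indicator_of_notMem hy]
        rw [hB, Metric.mem_closedBall, dist_eq_norm, not_le] at hy
        refine max_le le_rfl ((min_le_right _ _).trans ?_)
        exact div_nonpos_of_nonpos_of_nonneg (by linarith) hη0.le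
    have hBm : MeasurableSet B := Metric.isClosed_closedBall.measurableSet
    calc ∫ y : Circ, g y ≤ ∫ y : Circ, B.indicator (fun _ => (1 : ℝ)) y := by
          refine integral_mono ?_ ?_ h6
          · exact g.continuous.integrable_of_hasCompactSupport (HasCompactSupport.of_compactSpace _)
          · exact (integrable_const (1 : ℝ)).indicator hBm
      _ = (volume : Measure Circ).real B := by
          rw [integral_indicator hBm, setIntegral_const, smul_eq_mul, mul_one]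
      _ ≤ 2 * (ρ + η) := by
          rw [Measure.real, hB, AddCircle.volume_closedBall,
            ENNReal.toReal_ofReal (le_min zero_le_one (by linarith))]
          exact min_le_right _ _
  -- the count
  have h7 : (((range N).filter fun n => ‖z n - ((m : ℝ) : Circ)‖ ≤ ρ).card : ℝ) ≤
      ∑ n ∈ range N, g (z n) := by
    rw [card_filter]
    push_cast
    refine sum_le_sum fun n _ => ?_
    split_ifs with hn
    · simp only [g, ContinuousMap.coe_mk]
      rw [min_eq_left, max_eq_right zero_le_one]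
      rw [le_div_iff₀ hη0]
      linarith
    · exact hg0 _
  have h8 : (∑ n ∈ range N, g (z n)) / N ≤ 2 * ρ + ε := by
    rw [hη] at h5; linarith
  rw [div_le_iff₀ hNpos] at h8
  exact h7.trans h8

/-! ## Digits and words -/

/-- the `j`-th digit of `y` after the point in base `b` -/
noncomputable def digit (b : ℕ) (y : ℝ) (j : ℕ) : ℤ := ⌊(b : ℝ) ^ j * y⌋ % (b : ℤ)

/-- the number of `n < N` such that the word `w` stands at the places `n + 1, …, n + k` -/
noncomputable def occ {b k : ℕ} (w : Fin k → Fin b) (y : ℝ) (N : ℕ) : ℕ :=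
  ((range N).filter fun n => ∀ i : Fin k, digit b y (n + 1 + i) = (w i : ℕ)).card

/-- all words of length `k` have the right frequency in the first `N` places, up to `ε` -/
def Good (b k : ℕ) (ε : ℝ) (y : ℝ) (N : ℕ) : Prop :=
  ∀ w : Fin k → Fin b, |(occ w y N : ℝ) - N / (b : ℝ) ^ k| ≤ ε * N

/-- the middle of the interval of a word -/
noncomputable def mid {b k : ℕ} (w : Fin k → Fin b) : ℝ :=
  ∑ i : Fin k, ((w i : ℕ) : ℝ) / (b : ℝ) ^ ((i : ℕ) + 1) + 1 / (2 * (b : ℝ) ^ k)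

lemma floor_step {b : ℕ} (hb : 2 ≤ b) (t : ℝ) (k : ℕ) :
    ⌊(b : ℝ) ^ (k + 1) * t⌋ = b * ⌊(b : ℝ) ^ k * t⌋ + ⌊(b : ℝ) ^ (k + 1) * t⌋ % (b : ℤ) := by
  have hbpos : (0 : ℝ) < b := by positivity
  have hbz : (0 : ℤ) < b := by exact_mod_cast (by omega : 0 < b)
  have h1 : ⌊(b : ℝ) ^ (k + 1) * t⌋ / (b : ℤ) = ⌊(b : ℝ) ^ k * t⌋ := by
    have h2 : (b : ℝ) ^ k * t = (b : ℝ) ^ (k + 1) * t / b := by
      rw [pow_succ]; field_simp
    rw [h2]
    exact (Int.floor_div_natCast ((b : ℝ) ^ (k + 1) * t) b).symm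
  have h3 := Int.emod_add_mul_ediv ⌊(b : ℝ) ^ (k + 1) * t⌋ (b : ℤ)
  rw [h1] at h3
  linarith

/-- the word determines the position up to `1 / (2 b ^ k)` -/
lemma word_arc {b : ℕ} (hb : 2 ≤ b) {k : ℕ} (w : Fin k → Fin b) (t : ℝ)
    (hw : ∀ i : Fin k, ⌊(b : ℝ) ^ ((i : ℕ) + 1) * t⌋ % (b : ℤ) = (w i : ℕ)) :
    ‖((t : ℝ) : Circ) - ((mid w : ℝ) : Circ)‖ ≤ 1 / (2 * (b : ℝ) ^ k) := by
  have hbpos : (0 : ℝ) < b := by positivity
  have h1 : ∀ j : ℕ, ∀ hj : j ≤ k, ((⌊(b : ℝ) ^ j * t⌋ : ℤ) : ℝ) = (b : ℝ) ^ j *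
      (⌊t⌋ + ∑ i : Fin j, ((w (Fin.castLE hj i) : ℕ) : ℝ) / (b : ℝ) ^ ((i : ℕ) + 1)) := by
    intro j
    induction j with
    | zero => intro hj; simp
    | succ j ih =>
      intro hj
      have h2 := ih (by omega)
      have h3 := floor_step hb t j
      have h4 := hw ⟨j, hj⟩
      simp only at h4
      rw [h4] at h3
      rw [h3, Fin.sum_univ_castSucc]
      push_cast
      rw [h2]
      have h5 : (Fin.castLE hj (Fin.last j)) = ⟨j, hj⟩ := rfl
      have h6 : ∀ i : Fin j, Fin.castLE hj i.castSucc = Fin.castLE (by omega : j ≤ k) i :=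
        fun i => rfl
      rw [h5]
      simp only [h6, Fin.val_castSucc]
      have h7 : (b : ℝ) ^ (j + 1) ≠ 0 := by positivity
      field_simp
      ring
  have h2 := h1 k le_rfl
  have h3 := Int.floor_le ((b : ℝ) ^ k * t)
  have h4 := Int.lt_floor_add_one ((b : ℝ) ^ k * t)
  have hS : ∑ i : Fin k, ((w (Fin.castLE le_rfl i) : ℕ) : ℝ) / (b : ℝ) ^ ((i : ℕ) + 1) =
      ∑ i : Fin k, ((w i : ℕ) : ℝ) / (b : ℝ) ^ ((i : ℕ) + 1) := rfl
  rw [h2, hS] at h3 h4
  set S := ∑ i : Fin k, ((w i : ℕ) : ℝ) / (b : ℝ) ^ ((i : ℕ) + 1) with hSdef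
  have hbk : (0 : ℝ) < (b : ℝ) ^ k := by positivity
  have h5 : (⌊t⌋ : ℝ) + S ≤ t := by
    by_contra hcon
    push Not at hcon
    have := mul_lt_mul_of_pos_left hcon hbk
    linarith
  have h6 : t < ⌊t⌋ + S + 1 / (b : ℝ) ^ k := by
    have h7 : (b : ℝ) ^ k * t < (b : ℝ) ^ k * (⌊t⌋ + S + 1 / (b : ℝ) ^ k) := by
      rw [mul_add _ _ (1 / (b : ℝ) ^ k), mul_one_div_cancel hbk.ne']
      exact h4
    exact lt_of_mul_lt_mul_left h7 hbk.le
  rw [← AddCircle.coe_sub]
  have h8 : |t - mid w - ⌊t⌋| ≤ 1 / (2 * (b : ℝ) ^ k) := by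
    unfold mid
    rw [← hSdef]
    have h9 : 1 / (b : ℝ) ^ k = 2 * (1 / (2 * (b : ℝ) ^ k)) := by field_simp
    rw [h9] at h6
    rw [abs_le]
    constructor <;> linarith
  rw [UnitAddCircle.norm_eq]
  exact (round_le _ _).trans h8

lemma digit_shift (b : ℕ) (y : ℝ) (n i : ℕ) :
    digit b y (n + 1 + i) = ⌊(b : ℝ) ^ (i + 1) * ((b : ℝ) ^ n * y)⌋ % (b : ℤ) := by
  unfold digit
  congr 2
  rw [← mul_assoc, ← pow_add]
  congr 2
  omega

/-- the number of occurrences is at most the number of visits to the arc -/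
lemma occ_le {b : ℕ} (hb : 2 ≤ b) {k : ℕ} (w : Fin k → Fin b) (y : ℝ) (N : ℕ) :
    occ w y N ≤ ((range N).filter fun n =>
      ‖(((b : ℝ) ^ n * y : ℝ) : Circ) - ((mid w : ℝ) : Circ)‖ ≤ 1 / (2 * (b : ℝ) ^ k)).card := by
  classical
  unfold occ
  refine card_le_card fun n hn => ?_
  rw [mem_filter] at hn ⊢
  refine ⟨hn.1, word_arc hb w _ fun i => ?_⟩
  rw [← digit_shift]
  exact hn.2 i

/-- every place carries exactly one word -/
lemma sum_occ {b : ℕ} (hb : 2 ≤ b) (k : ℕ) (y : ℝ) (N : ℕ) :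
    ∑ w : Fin k → Fin b, occ w y N = N := by
  classical
  have hbz : (0 : ℤ) < b := by exact_mod_cast (by omega : 0 < b)
  let φ : ℕ → (Fin k → Fin b) := fun n i => ⟨(digit b y (n + 1 + i)).toNat, by
    have h1 := Int.emod_lt_of_pos ⌊(b : ℝ) ^ (n + 1 + (i : ℕ)) * y⌋ hbz
    have h2 := Int.emod_nonneg ⌊(b : ℝ) ^ (n + 1 + (i : ℕ)) * y⌋ hbz.ne'
    unfold digit
    omega⟩
  have h1 : ∀ w : Fin k → Fin b, occ w y N = ((range N).filter fun n => φ n = w).card := by
    intro w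
    unfold occ
    congr 1
    refine filter_congr fun n _ => ?_
    rw [funext_iff]
    refine forall_congr' fun i => ?_
    rw [Fin.ext_iff]
    simp only [φ]
    have h2 : 0 ≤ digit b y (n + 1 + i) := Int.emod_nonneg _ hbz.ne'
    omega
  rw [sum_congr rfl fun w _ => h1 w]
  have h2 := card_eq_sum_card_fiberwise (s := range N) (t := (univ : Finset (Fin k → Fin b)))
    (f := φ) (fun _ _ => mem_univ _)
  rw [← h2, card_range]

/-- **Finitely many small Weyl means make all words of length `k` frequent.** -/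
theorem good_of_weyl {b : ℕ} (hb : 2 ≤ b) (k : ℕ) {ε : ℝ} (hε : 0 < ε) :
    ∃ (H : Finset ℤ) (δ : ℝ), 0 ∉ H ∧ 0 < δ ∧ ∀ (y : ℝ) (N : ℕ), 0 < N →
      (∀ h ∈ H, ‖weyl b h N y‖ ≤ δ) → Good b k ε y N := by
  classical
  have hbk : (0 : ℝ) < (b : ℝ) ^ k := by positivity
  set ε' := ε / (b : ℝ) ^ k with hε'
  have hε'0 : 0 < ε' := by positivity
  have h1 : ∀ w : Fin k → Fin b, ∃ (H : Finset ℤ) (δ : ℝ), 0 ∉ H ∧ 0 < δ ∧ ∀ (y : ℝ) (N : ℕ),
      0 < N → (∀ h ∈ H, ‖weyl b h N y‖ ≤ δ) → (occ w y N : ℝ) ≤ (1 / (b : ℝ) ^ k + ε') * N := by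
    intro w
    obtain ⟨H, δ, h0, hδ, h⟩ := arc_upper (mid w) (ρ := 1 / (2 * (b : ℝ) ^ k)) (by positivity) hε'0
    refine ⟨H, δ, h0, hδ, fun y N hN hy => ?_⟩
    have h2 := h (fun n => (((b : ℝ) ^ n * y : ℝ) : Circ)) N hN fun k hk => by
      rw [avg_eq]; exact hy k hk
    refine (Nat.cast_le.2 (occ_le hb w y N)).trans (h2.trans (le_of_eq ?_))
    congr 2
    field_simp
  choose H δ h0 hδ h using h1
  have hne : (univ : Finset (Fin k → Fin b)).Nonempty :=
    ⟨fun _ => ⟨0, by omega⟩, mem_univ _⟩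
  refine ⟨univ.biUnion H, univ.inf' hne δ, ?_, ?_, fun y N hN hy => ?_⟩
  · rw [mem_biUnion]
    rintro ⟨w, _, hw⟩
    exact h0 w hw
  · rw [lt_inf'_iff]
    exact fun w _ => hδ w
  have hNpos : (0 : ℝ) < N := by exact_mod_cast hN
  have hup : ∀ w, (occ w y N : ℝ) ≤ (1 / (b : ℝ) ^ k + ε') * N := fun w =>
    h w y N hN fun k hk => (hy k (mem_biUnion.2 ⟨w, mem_univ _, hk⟩)).trans
      (inf'_le _ (mem_univ w))
  intro w
  have hsum : ∑ w : Fin k → Fin b, (occ w y N : ℝ) = N := by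
    exact_mod_cast sum_occ hb k y N
  have hcard : (Fintype.card (Fin k → Fin b) : ℝ) = (b : ℝ) ^ k := by
    rw [Fintype.card_fun, Fintype.card_fin, Fintype.card_fin]
    push_cast; rfl
  have hrest : ∑ w' ∈ univ.erase w, (occ w' y N : ℝ) ≤
      ((b : ℝ) ^ k - 1) * ((1 / (b : ℝ) ^ k + ε') * N) := by
    refine (sum_le_sum fun w' _ => hup w').trans (le_of_eq ?_)
    rw [sum_const, nsmul_eq_mul, card_erase_of_mem (mem_univ w), card_univ,
      Nat.cast_sub (Fintype.card_pos_iff.2 ⟨w⟩), hcard, Nat.cast_one]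
  have hsplit := add_sum_erase univ (fun w' => (occ w' y N : ℝ)) (mem_univ w)
  rw [hsum] at hsplit
  have hup' := hup w
  have e1 : ((b : ℝ) ^ k - 1) * ((1 / (b : ℝ) ^ k + ε') * N) =
      N - N / (b : ℝ) ^ k + ε * N - ε' * N := by
    rw [hε']; field_simp; ring
  have e2 : (1 / (b : ℝ) ^ k + ε') * N = N / (b : ℝ) ^ k + ε' * N := by ring
  have e3 : ε' ≤ ε := by
    rw [hε']
    exact div_le_self hε.le (one_le_pow₀ (by exact_mod_cast (by omega : 1 ≤ b)))
  have e4 : ε' * N ≤ ε * N := by gcongr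
  have e5 : 0 ≤ ε' * N := by positivity
  rw [abs_le]
  constructor
  · linarith
  · linarith

end Pool.Agent.TH382.FT
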