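import Pool.Agent.TH382.FT.Trans
import Pool.Agent.TH382.FT.Word

/-!
# Almost all rational translates have good digits, most of the time
-/

set_option autoImplicit false

namespace Pool.Agent.TH382.FT

open Finset Filter Pool.Agent.TH382.FO

open Classical in
/-- **At each large time only boundedly many translates are bad.** -/
theorem bad_count {b M : ℕ} (hb : 2 ≤ b) (hM : M ≠ 0) (hbM : Nat.Coprime b M) (k : ℕ) {ε : ℝ}
    (hε : 0 < ε) :
    ∃ C : ℝ, 0 ≤ C ∧ ∀ R : Finset ℝ, (∀ r ∈ R, Radic M r) → ∃ N₀ : ℕ, ∀ (x : ℝ) (N : ℕ), N₀ ≤ N →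
      ((R.filter fun r => ¬ Good b k ε (x + r) N).card : ℝ) ≤ C := by
  obtain ⟨H, δ, h0, hδ, hgood⟩ := good_of_weyl hb k hε
  have hK : ∀ h : ℤ, ∃ K : ℕ, h ≠ 0 → ∀ R : Finset ℝ, (∀ r ∈ R, Radic M r) →
      ∃ C : ℝ, 0 ≤ C ∧ ∀ N : ℕ, 0 < N → ∀ x : ℝ,
        ∑ r ∈ R, ‖weyl b h N (x + r)‖ ^ 2 ≤ K + C / N := by
    intro h
    by_cases hh : h = 0
    · exact ⟨0, fun h1 => absurd hh h1⟩
    · obtain ⟨K, hK⟩ := sum_translates hb hM hbM hh
      exact ⟨K, fun _ => hK⟩
  choose K hK using hK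
  refine ⟨(∑ h ∈ H, ((K h : ℝ) + 1)) / δ ^ 2, by positivity, fun R hR => ?_⟩
  have hH0 : ∀ h ∈ H, h ≠ 0 := fun h hh h1 => h0 (h1 ▸ hh)
  have hC : ∀ h : ℤ, ∃ C : ℝ, h ≠ 0 → 0 ≤ C ∧ ∀ N : ℕ, 0 < N → ∀ x : ℝ,
      ∑ r ∈ R, ‖weyl b h N (x + r)‖ ^ 2 ≤ K h + C / N := by
    intro h
    by_cases hh : h = 0
    · exact ⟨0, fun h1 => absurd hh h1⟩
    · obtain ⟨C, hC0, hC⟩ := hK h hh R hR
      exact ⟨C, fun _ => ⟨hC0, hC⟩⟩
  choose C hC using hC
  refine ⟨⌈∑ h ∈ H, C h⌉₊ + 1, fun x N hN => ?_⟩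
  have hN0 : 0 < N := by omega
  have hNpos : (0 : ℝ) < N := by exact_mod_cast hN0
  have hCN : ∀ h ∈ H, C h / N ≤ 1 := by
    intro h hh
    rw [div_le_one hNpos]
    have h1 : C h ≤ ∑ h ∈ H, C h :=
      single_le_sum (f := C) (fun h hh => (hC h (hH0 h hh)).1) hh
    have h2 : ((⌈∑ h ∈ H, C h⌉₊ + 1 : ℕ) : ℝ) ≤ N := by exact_mod_cast hN
    push_cast at h2
    have h3 := Nat.le_ceil (∑ h ∈ H, C h)
    linarith
  rw [le_div_iff₀ (by positivity)]
  set Bad := R.filter fun r => ¬ Good b k ε (x + r) N with hBad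
  have h1 : ∀ r ∈ Bad, δ ^ 2 ≤ ∑ h ∈ H, ‖weyl b h N (x + r)‖ ^ 2 := by
    intro r hr
    rw [hBad, mem_filter] at hr
    by_contra hcon
    push Not at hcon
    apply hr.2
    refine hgood (x + r) N hN0 fun h hh => ?_
    have h2 : ‖weyl b h N (x + r)‖ ^ 2 ≤ ∑ h ∈ H, ‖weyl b h N (x + r)‖ ^ 2 :=
      single_le_sum (f := fun h => ‖weyl b h N (x + r)‖ ^ 2) (fun _ _ => by positivity) hh
    exact (pow_le_pow_iff_left₀ (norm_nonneg _) hδ.le two_ne_zero).1 (h2.trans hcon.le)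
  calc (Bad.card : ℝ) * δ ^ 2 = ∑ r ∈ Bad, δ ^ 2 := by rw [sum_const, nsmul_eq_mul]
    _ ≤ ∑ r ∈ Bad, ∑ h ∈ H, ‖weyl b h N (x + r)‖ ^ 2 := sum_le_sum h1
    _ ≤ ∑ r ∈ R, ∑ h ∈ H, ‖weyl b h N (x + r)‖ ^ 2 :=
        sum_le_sum_of_subset_of_nonneg (filter_subset _ _)
          fun _ _ _ => sum_nonneg fun _ _ => by positivity
    _ = ∑ h ∈ H, ∑ r ∈ R, ‖weyl b h N (x + r)‖ ^ 2 := sum_comm
    _ ≤ ∑ h ∈ H, ((K h : ℝ) + 1) := by
        refine sum_le_sum fun h hh => ?_
        have := (hC h (hH0 h hh)).2 N hN0 x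
        linarith [hCN h hh]

open Classical in
/-- the number of good times before `X` -/
noncomputable def goodTimes (b k : ℕ) (ε y : ℝ) (X : ℕ) : ℕ :=
  ((range X).filter fun N => Good b k ε y N).card

open Classical in
/-- **All but boundedly many translates are good most of the time.** -/
theorem exceptional {b M : ℕ} {k : ℕ} {ε C : ℝ}
    (hC : ∀ R : Finset ℝ, (∀ r ∈ R, Radic M r) → ∃ N₀ : ℕ, ∀ (x : ℝ) (N : ℕ), N₀ ≤ N →
      ((R.filter fun r => ¬ Good b k ε (x + r) N).card : ℝ) ≤ C) {x η : ℝ} (R : Finset ℝ)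
    (hR : ∀ r ∈ R, Radic M r ∧
      ¬ ∃ᶠ X : ℕ in atTop, (1 - η) * X ≤ goodTimes b k ε (x + r) X) :
    (R.card : ℝ) * η ≤ C := by
  obtain ⟨N₀, hN₀⟩ := hC R fun r hr => (hR r hr).1
  have hN₀' : ∀ N : ℕ, N₀ ≤ N → ((R.filter fun r => ¬ Good b k ε (x + r) N).card : ℝ) ≤ C :=
    fun N hN => hN₀ x N hN
  by_contra hcon
  push Not at hcon
  have hev : ∀ᶠ X : ℕ in atTop, ∀ r ∈ R, (goodTimes b k ε (x + r) X : ℝ) < (1 - η) * X := by
    rw [eventually_all_finset]
    intro r hr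
    have := (hR r hr).2
    rw [not_frequently] at this
    filter_upwards [this] with X hX
    exact not_le.1 hX
  obtain ⟨X, hX1, hX2⟩ := (hev.and (eventually_gt_atTop
    ⌈(N₀ : ℝ) * R.card / (R.card * η - C)⌉₊)).exists
  have hXpos : (0 : ℝ) < X := by exact_mod_cast (by omega : 0 < X)
  have hpos : 0 < (R.card : ℝ) * η - C := by linarith
  have hX3 : (N₀ : ℝ) * R.card < X * (R.card * η - C) := by
    have h1 : (N₀ : ℝ) * R.card / (R.card * η - C) < X := by
      refine (Nat.le_ceil _).trans_lt ?_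
      exact_mod_cast hX2
    rwa [div_lt_iff₀ hpos] at h1
  -- count the bad pairs
  have h1 : ∀ r ∈ R, η * X ≤ (((range X).filter fun N => ¬ Good b k ε (x + r) N).card : ℝ) := by
    intro r hr
    have h2 := hX1 r hr
    have h3 := card_filter_add_card_filter_not (s := range X) (fun N => Good b k ε (x + r) N)
    rw [card_range] at h3
    have h4 : (goodTimes b k ε (x + r) X : ℝ) +
        (((range X).filter fun N => ¬ Good b k ε (x + r) N).card : ℝ) = X := by
      unfold goodTimes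
      exact_mod_cast h3
    linarith
  have h2 : (R.card : ℝ) * (η * X) ≤ ∑ r ∈ R,
      (((range X).filter fun N => ¬ Good b k ε (x + r) N).card : ℝ) := by
    calc (R.card : ℝ) * (η * X) = ∑ r ∈ R, η * X := by rw [sum_const, nsmul_eq_mul]
      _ ≤ _ := sum_le_sum h1
  have h3 : ∑ r ∈ R, (((range X).filter fun N => ¬ Good b k ε (x + r) N).card : ℝ) =
      ∑ N ∈ range X, ((R.filter fun r => ¬ Good b k ε (x + r) N).card : ℝ) := by
    have h4 : ∀ r, (((range X).filter fun N => ¬ Good b k ε (x + r) N).card : ℝ) =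
        ∑ N ∈ range X, if ¬ Good b k ε (x + r) N then (1 : ℝ) else 0 := by
      intro r
      rw [card_filter]; push_cast; rfl
    have h5 : ∀ N, ((R.filter fun r => ¬ Good b k ε (x + r) N).card : ℝ) =
        ∑ r ∈ R, if ¬ Good b k ε (x + r) N then (1 : ℝ) else 0 := by
      intro N
      rw [card_filter]; push_cast; rfl
    rw [sum_congr rfl fun r _ => h4 r, sum_congr rfl fun N _ => h5 N, sum_comm]
  have hC0 : 0 ≤ C := le_trans (by positivity) (hN₀' N₀ le_rfl)
  have h4 : ∑ N ∈ range X, ((R.filter fun r => ¬ Good b k ε (x + r) N).card : ℝ) ≤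
      N₀ * R.card + X * C := by
    calc ∑ N ∈ range X, ((R.filter fun r => ¬ Good b k ε (x + r) N).card : ℝ)
        ≤ ∑ N ∈ range X, ((if N < N₀ then (R.card : ℝ) else 0) + C) := by
          refine sum_le_sum fun N _ => ?_
          split_ifs with hN
          · have : ((R.filter fun r => ¬ Good b k ε (x + r) N).card : ℝ) ≤ R.card := by
              exact_mod_cast card_filter_le _ _
            linarith
          · have := hN₀' N (not_lt.1 hN)
            linarith
      _ = ∑ N ∈ (range X).filter (fun N => N < N₀), (R.card : ℝ) + X * C := by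
          rw [sum_add_distrib, ← sum_filter, sum_const, sum_const, card_range, nsmul_eq_mul,
            nsmul_eq_mul]
      _ ≤ N₀ * R.card + X * C := by
          rw [sum_const, nsmul_eq_mul]
          have h5 : (((range X).filter fun N => N < N₀).card : ℝ) ≤ N₀ := by
            have : ((range X).filter fun N => N < N₀) ⊆ range N₀ := fun N hN =>
              mem_range.2 (mem_filter.1 hN).2
            have := card_le_card this
            rw [card_range] at this
            exact_mod_cast this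
          gcongr
  rw [h3] at h2
  have h5 := h2.trans h4
  nlinarith

end Pool.Agent.TH382.FT
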