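import Pool.Agent.TH382.FO.Bessel

/-!
# The Bessel inequality for all translates by fractions with denominators composed of fixed primes
-/

set_option autoImplicit false

namespace Pool.Agent.TH382.FT

open Finset Pool.Agent.TH382.FO

/-- Either `h A / M ^ j` has denominator at most `Q`, or the sums are bounded. -/
lemma exists_Q {b M : ℕ} (hb : 2 ≤ b) (hM : M ≠ 0) (hbM : Nat.Coprime b M) :
    ∃ Q : ℕ, 0 < Q ∧ ∀ (j : ℕ) (A : ℤ) (h : ℤ),
      (∃ z : ℤ, (Q : ℝ) * (h * ((A : ℝ) / (M : ℝ) ^ j)) = z) ∨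
      ∃ C : ℝ, ∀ N : ℕ, ‖∑ n ∈ range N, e (h * ((b : ℝ) ^ n * ((A : ℝ) / (M : ℝ) ^ j)))‖ ≤ C := by
  classical
  have hs : ∀ p : ℕ, ∃ s : ℕ, p.Prime → p ∣ M → ∀ (E Q : ℕ) (u : ℤ), s < E → 0 < Q → ¬ p ∣ Q →
      (∀ q : ℕ, q.Prime → q ∣ Q → q ∣ M) → ¬ (p : ℤ) ∣ u →
      ∃ C : ℝ, ∀ N : ℕ, ‖∑ n ∈ range N, e ((b : ℝ) ^ n * ((u : ℝ) / ((p : ℝ) ^ E * Q)))‖ ≤ C := by
    intro p
    by_cases hp : p.Prime ∧ p ∣ M
    · have hpb : ¬ p ∣ b := fun h1 => by
        have := Nat.dvd_gcd h1 hp.2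
        rw [hbM] at this
        exact hp.1.one_lt.ne' (Nat.dvd_one.1 this)
      obtain ⟨s, hs⟩ := arith hM hp.1 hpb hb
      exact ⟨s, fun _ _ => hs⟩
    · exact ⟨0, fun h1 h2 => absurd ⟨h1, h2⟩ hp⟩
  choose s hs using hs
  set Q := ∏ p ∈ M.primeFactors, p ^ s p with hQ
  have hQ0 : 0 < Q := prod_pos fun p hp => pow_pos (Nat.prime_of_mem_primeFactors hp).pos _
  refine ⟨Q, hQ0, fun j A h => ?_⟩
  have hM0 : (M : ℝ) ≠ 0 := by exact_mod_cast hM
  have hMz : (M : ℤ) ≠ 0 := by exact_mod_cast hM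
  set B : ℤ := h * A with hB
  by_cases hdiv : M ^ j ∣ Q * B.natAbs
  · left
    have h1 : ((M : ℤ) ^ j) ∣ Q * B := by
      rw [← Int.natAbs_dvd_natAbs, Int.natAbs_pow, Int.natAbs_mul, Int.natAbs_natCast,
        Int.natAbs_natCast]
      exact hdiv
    obtain ⟨z, hz⟩ := h1
    refine ⟨z, ?_⟩
    have h2 : (Q : ℝ) * (h * A) = (M : ℝ) ^ j * z := by
      have : ((Q : ℤ) * (h * A) : ℤ) = (M : ℤ) ^ j * z := by rw [← hB, hz]
      exact_mod_cast this
    rw [← mul_div_assoc, ← mul_div_assoc, h2]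
    field_simp
  · right
    rw [Nat.dvd_iff_prime_pow_dvd_dvd] at hdiv
    push Not at hdiv
    obtain ⟨p, f, hp, hpf, hnpf⟩ := hdiv
    have hf0 : f ≠ 0 := by
      rintro rfl
      exact hnpf (by simp)
    have hpM : p ∣ M := hp.dvd_of_dvd_pow ((dvd_pow_self p hf0).trans hpf)
    have hB0 : B ≠ 0 := by
      intro h0
      apply hnpf
      rw [h0]; simp
    have hfin : FiniteMultiplicity (p : ℤ) B :=
      Int.finiteMultiplicity_iff.2 ⟨by simpa using hp.ne_one, hB0⟩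
    obtain ⟨B', hB', hpB'⟩ := hfin.exists_eq_pow_mul_and_not_dvd
    set w := multiplicity (p : ℤ) B with hw
    have hfw : s p + w < f := by
      by_contra hcon
      push Not at hcon
      apply hnpf
      have h1 : p ^ (s p) ∣ Q :=
        dvd_prod_of_mem (fun p => p ^ s p) (Nat.mem_primeFactors.2 ⟨hp, hpM, hM⟩)
      have h2 : p ^ w ∣ B.natAbs := by
        have := Int.natAbs_dvd_natAbs.2 (Dvd.intro _ hB'.symm : (p : ℤ) ^ w ∣ B)
        rwa [Int.natAbs_pow, Int.natAbs_natCast] at this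
      have h3 : p ^ (s p + w) ∣ Q * B.natAbs := by
        rw [pow_add]; exact mul_dvd_mul h1 h2
      exact (pow_dvd_pow p hcon).trans h3
    have hMj : M ^ j ≠ 0 := pow_ne_zero _ hM
    have hafin : FiniteMultiplicity p (M ^ j) := Nat.finiteMultiplicity_iff.2 ⟨hp.ne_one, by
      exact Nat.pos_of_ne_zero hMj⟩
    obtain ⟨M₁, hM₁, hpM₁⟩ := hafin.exists_eq_pow_mul_and_not_dvd
    set E := multiplicity p (M ^ j) with hE
    have hfE : f ≤ E := hafin.le_multiplicity_of_pow_dvd hpf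
    have hM₁0 : 0 < M₁ := by
      rcases Nat.eq_zero_or_pos M₁ with h0 | h0
      · rw [h0, mul_zero] at hM₁; exact absurd hM₁ hMj
      · exact h0
    obtain ⟨C, hC⟩ := hs p hp hpM (E - w) M₁ B' (by omega) hM₁0 hpM₁ (fun q hq h1 => by
      have h2 : q ∣ M ^ j := by rw [hM₁]; exact h1.mul_left _
      exact hq.dvd_of_dvd_pow h2) hpB'
    refine ⟨C, fun N => ?_⟩
    have hp0 : (p : ℝ) ≠ 0 := by exact_mod_cast hp.ne_zero
    have hM₁r : (M₁ : ℝ) ≠ 0 := by exact_mod_cast hM₁0.ne'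
    have key : ∀ n : ℕ, (h : ℝ) * ((b : ℝ) ^ n * ((A : ℝ) / (M : ℝ) ^ j)) =
        (b : ℝ) ^ n * ((B' : ℝ) / ((p : ℝ) ^ (E - w) * M₁)) := by
      intro n
      have h1 : (h : ℝ) * A = (p : ℝ) ^ w * B' := by
        have h5 : ((B : ℤ) : ℝ) = (((p : ℤ) ^ w * B' : ℤ) : ℝ) := congrArg _ hB'
        rw [hB] at h5
        push_cast at h5
        exact h5
      have h2 : (M : ℝ) ^ j = (p : ℝ) ^ (E - w) * (p : ℝ) ^ w * M₁ := by
        rw [← pow_add, Nat.sub_add_cancel (by omega)]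
        exact_mod_cast hM₁
      calc (h : ℝ) * ((b : ℝ) ^ n * ((A : ℝ) / (M : ℝ) ^ j))
          = (b : ℝ) ^ n * ((h * A) / (M : ℝ) ^ j) := by ring
        _ = _ := by rw [h1, h2]; field_simp
    calc ‖∑ n ∈ range N, e (h * ((b : ℝ) ^ n * ((A : ℝ) / (M : ℝ) ^ j)))‖ = _ := by
          rw [sum_congr rfl fun n _ => congrArg e (key n)]
      _ ≤ C := hC N

/-- `r` is in `[0, 1)` and has a denominator which divides a power of `M` -/
def Radic (M : ℕ) (r : ℝ) : Prop := 0 ≤ r ∧ r < 1 ∧ ∃ (j : ℕ) (u : ℤ), r = (u : ℝ) / (M : ℝ) ^ j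

/-- **The Weyl means of the translates are square summable**, uniformly in `x`. -/
theorem sum_translates {b M : ℕ} (hb : 2 ≤ b) (hM : M ≠ 0) (hbM : Nat.Coprime b M) {h : ℤ}
    (hh : h ≠ 0) :
    ∃ K : ℕ, ∀ R : Finset ℝ, (∀ r ∈ R, Radic M r) → ∃ C : ℝ, 0 ≤ C ∧ ∀ N : ℕ, 0 < N → ∀ x : ℝ,
      ∑ r ∈ R, ‖weyl b h N (x + r)‖ ^ 2 ≤ K + C / N := by
  classical
  obtain ⟨Q, hQ0, hQ⟩ := exists_Q hb hM hbM
  have hM0 : (M : ℝ) ≠ 0 := by exact_mod_cast hM
  set K : ℕ := Q * h.natAbs with hK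
  have hK0 : 0 < K := Nat.mul_pos hQ0 (Int.natAbs_pos.2 hh)
  have hK0' : (0 : ℝ) < K := by exact_mod_cast hK0
  refine ⟨K, fun R hR => ?_⟩
  have hpair : ∀ r r' : ℝ, ∃ C : ℝ, r ∈ R → r' ∈ R → r ≠ r' → ⌊(K : ℝ) * r⌋ = ⌊(K : ℝ) * r'⌋ →
      ∀ N : ℕ, ‖∑ n ∈ range N, e (h * ((b : ℝ) ^ n * (r - r')))‖ ≤ C := by
    intro r r'
    by_cases hc : r ∈ R ∧ r' ∈ R ∧ r ≠ r' ∧ ⌊(K : ℝ) * r⌋ = ⌊(K : ℝ) * r'⌋
    · obtain ⟨h1, h2, h3, h4⟩ := hc
      obtain ⟨-, -, j, u, hu⟩ := hR r h1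
      obtain ⟨-, -, j', u', hu'⟩ := hR r' h2
      have hd : r - r' = ((u * (M : ℤ) ^ j' - u' * (M : ℤ) ^ j : ℤ) : ℝ) / (M : ℝ) ^ (j + j') := by
        rw [hu, hu', pow_add]
        push_cast
        field_simp
      rcases hQ (j + j') (u * (M : ℤ) ^ j' - u' * (M : ℤ) ^ j) h with ⟨z, hz⟩ | ⟨C, hC⟩
      · exfalso
        rw [← hd] at hz
        -- `K (r - r')` is an integer of absolute value less than one
        have h5 : ∃ y : ℤ, (K : ℝ) * (r - r') = y := by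
          rcases Int.natAbs_eq h with h6 | h6
          · refine ⟨z, ?_⟩
            rw [hK, ← hz]
            push_cast
            have : (h : ℝ) = ((h.natAbs : ℕ) : ℝ) := by
              have := congrArg (fun t : ℤ => (t : ℝ)) h6
              simpa using this
            rw [this]
            ring
          · refine ⟨-z, ?_⟩
            push_cast
            rw [hK, ← hz]
            push_cast
            have : (h : ℝ) = -((h.natAbs : ℕ) : ℝ) := by
              have := congrArg (fun t : ℤ => (t : ℝ)) h6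
              simpa using this
            rw [this]
            ring
        obtain ⟨y, hy⟩ := h5
        have h7 := Int.floor_le ((K : ℝ) * r)
        have h8 := Int.lt_floor_add_one ((K : ℝ) * r)
        have h9 := Int.floor_le ((K : ℝ) * r')
        have h10 := Int.lt_floor_add_one ((K : ℝ) * r')
        rw [h4] at h7 h8
        have h11 : -1 < (y : ℝ) := by rw [← hy]; linarith
        have h12 : (y : ℝ) < 1 := by rw [← hy]; linarith
        have h13 : y = 0 := by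
          have h14 : -1 < y := by exact_mod_cast h11
          have h15 : y < 1 := by exact_mod_cast h12
          omega
        rw [h13, Int.cast_zero, mul_eq_zero] at hy
        rcases hy with hy | hy
        · exact hK0'.ne' hy
        · exact h3 (sub_eq_zero.1 hy)
      · refine ⟨C, fun _ _ _ _ N => ?_⟩
        rw [hd]
        exact hC N
    · exact ⟨0, fun h1 h2 h3 h4 => absurd ⟨h1, h2, h3, h4⟩ hc⟩
  choose Cf hCf using hpair
  set C : ℝ := ∑ r ∈ R, ∑ r' ∈ R, |Cf r r'| with hC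
  have hC0 : 0 ≤ C := sum_nonneg fun _ _ => sum_nonneg fun _ _ => abs_nonneg _
  have hCle : ∀ r ∈ R, ∀ r' ∈ R, Cf r r' ≤ C := fun r hr r' hr' => (le_abs_self _).trans
    ((single_le_sum (f := fun r' => |Cf r r'|) (fun _ _ => abs_nonneg _) hr').trans
      (single_le_sum (f := fun r => ∑ r' ∈ R, |Cf r r'|)
        (fun _ _ => sum_nonneg fun _ _ => abs_nonneg _) hr))
  refine ⟨K * ((R.card : ℝ) ^ 2 * C), by positivity, fun N hN x => ?_⟩
  have hNpos : (0 : ℝ) < N := by exact_mod_cast hN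
  have hmaps : ∀ r ∈ R, ⌊(K : ℝ) * r⌋.toNat ∈ range K := by
    intro r hr
    obtain ⟨h1, h2, -⟩ := hR r hr
    rw [mem_range]
    have h3 : 0 ≤ ⌊(K : ℝ) * r⌋ := Int.floor_nonneg.2 (by positivity)
    have h4 : ⌊(K : ℝ) * r⌋ < (K : ℤ) := by
      rw [Int.floor_lt]
      push_cast
      nlinarith
    omega
  rw [← sum_fiberwise_of_maps_to hmaps]
  have hone : ∀ i ∈ range K, ∑ r ∈ R with ⌊(K : ℝ) * r⌋.toNat = i, ‖weyl b h N (x + r)‖ ^ 2 ≤
      1 + (R.card : ℝ) ^ 2 * C / N := by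
    intro i _
    set Ri := R.filter fun r => ⌊(K : ℝ) * r⌋.toNat = i with hRi
    have h1 := bessel b h hN (ι := Ri) (fun r => (r : ℝ)) hC0 (fun r r' hrr' => by
      have e1 := mem_filter.1 (show (r : ℝ) ∈ Ri from r.2)
      have e2 := mem_filter.1 (show (r' : ℝ) ∈ Ri from r'.2)
      have h3 : 0 ≤ ⌊(K : ℝ) * r⌋ := Int.floor_nonneg.2 (by
        have := (hR r e1.1).1; positivity)
      have h4 : 0 ≤ ⌊(K : ℝ) * r'⌋ := Int.floor_nonneg.2 (by
        have := (hR r' e2.1).1; positivity)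
      refine (hCf r r' e1.1 e2.1 (fun h => hrr' (Subtype.ext h)) ?_ N).trans
        (hCle r e1.1 r' e2.1)
      omega) x
    rw [sum_coe_sort Ri (fun r => ‖weyl b h N (x + r)‖ ^ 2)] at h1
    refine h1.trans ?_
    have h2 : (Fintype.card Ri : ℝ) ≤ R.card := by
      rw [Fintype.card_coe]
      exact_mod_cast card_filter_le _ _
    gcongr
  refine (sum_le_sum hone).trans (le_of_eq ?_)
  rw [sum_const, card_range, nsmul_eq_mul]
  field_simp

end Pool.Agent.TH382.FT
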